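import Pool.Agent.Helper29.E3.St2

/-! Project E3, module LMGX: the good characters in mean square, `q ≤ X^{2 r / (3 r + 4)}`. -/

set_option autoImplicit false

namespace Pool.Agent.Helper33.E3

open Finset ArithmeticFunction
open Pool.Agent.Helper29.E3
open Pool.Agent.Helper49.PC
open Pool.Agent.Helper48.BK (ex th lz Vz Pz gs nd Apx AdN Sol thd)

/-- the choice of `U` -/
theorem choice_U (r q : ℕ) (hr : 1 ≤ r) (hq : 1 ≤ q) :
    ∃ U : ℕ, 1 ≤ U ∧ q ≤ U ^ r ∧ U ^ r ≤ 2 ^ r * q := by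
  have hex : ∃ U : ℕ, q ≤ U ^ r := ⟨q, Nat.le_self_pow (by omega) q⟩
  classical
  obtain ⟨U, hU, hmin⟩ : ∃ U : ℕ, q ≤ U ^ r ∧ ∀ V < U, ¬ q ≤ V ^ r :=
    ⟨Nat.find hex, Nat.find_spec hex, fun V hV => Nat.find_min hex hV⟩
  have hU1 : 1 ≤ U := by
    rcases Nat.eq_zero_or_pos U with h | h
    · rw [h, zero_pow (by omega)] at hU
      omega
    · exact h
  refine ⟨U, hU1, hU, ?_⟩
  rcases Nat.lt_or_ge U 2 with h2 | h2
  · have : U = 1 := by omega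
    rw [this, one_pow]
    have h3 : 1 ≤ 2 ^ r := Nat.one_le_two_pow
    nlinarith
  · have h4 : (U - 1) ^ r < q := by
      have := hmin (U - 1) (by omega)
      omega
    calc U ^ r ≤ (2 * (U - 1)) ^ r := Nat.pow_le_pow_left (by omega) r
      _ = 2 ^ r * (U - 1) ^ r := mul_pow _ _ _
      _ ≤ 2 ^ r * q := Nat.mul_le_mul_left _ h4.le

theorem hLMGX (hVACX : StVACX) (hT1P : StT1P) (hT2P : StT2P) (hPS2 : StPS2) (hPWR : StPWR) :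
    StLMGX := by
  intro r A hr
  obtain ⟨C, hC, hpw⟩ := hPWR r hr
  obtain ⟨x₁, h1⟩ := hT1P r (A + 2) hr
  obtain ⟨A', x₂, h2⟩ := hT2P r (A + 2) hr
  obtain ⟨κ, hκ⟩ : ∃ κ : ℝ, κ = 1 / (3 * (r : ℝ) + 4) := ⟨_, rfl⟩
  have hκ0 : 0 < κ := by rw [hκ]; positivity
  have hev : ∀ᶠ X : ℕ in Filter.atTop, (2 : ℝ) ≤ Real.log X ∧
      32 * C ≤ (X : ℝ) ^ κ ∧ 12 * C * Real.log X ^ (A + 2) ≤ (X : ℝ) ^ κ ∧ 3 ≤ X := by
    have hl : Filter.Tendsto (fun X : ℕ => Real.log X) Filter.atTop Filter.atTop :=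
      Real.tendsto_log_atTop.comp tendsto_natCast_atTop_atTop
    have hr2 : Filter.Tendsto (fun X : ℕ => (X : ℝ) ^ κ) Filter.atTop Filter.atTop :=
      (tendsto_rpow_atTop hκ0).comp tendsto_natCast_atTop_atTop
    have ho := (isLittleO_log_rpow_rpow_atTop ((A + 2 : ℕ) : ℝ) hκ0).bound
      (show (0 : ℝ) < 1 / (12 * C) by positivity)
    have ho2 := tendsto_natCast_atTop_atTop.eventually ho
    filter_upwards [hl.eventually_ge_atTop 2, hr2.eventually_ge_atTop (32 * C),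
      ho2, Filter.eventually_ge_atTop 3] with X a1 a2 a3 a4
    refine ⟨a1, a2, ?_, a4⟩
    rw [Real.rpow_natCast, Real.norm_eq_abs, Real.norm_eq_abs, abs_of_nonneg (by positivity)] at a3
    have hpos : (0 : ℝ) ≤ Real.log X := by linarith
    rw [abs_of_nonneg (by positivity)] at a3
    have h5 : 12 * C * Real.log X ^ (A + 2) ≤ 12 * C * (1 / (12 * C) * (X : ℝ) ^ κ) :=
      mul_le_mul_of_nonneg_left a3 (by positivity)
    have h6 : 12 * C * (1 / (12 * C) * (X : ℝ) ^ κ) = (X : ℝ) ^ κ := by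
      field_simp
    rwa [h6] at h5
  obtain ⟨x₃, hx₃⟩ := Filter.eventually_atTop.1 hev
  refine ⟨A', max x₁ (max x₂ x₃), ?_⟩
  intro q _ X w₀ w₁ 𝓖 hX hq hw0 hw01 hw1 hG
  have hX1 : x₁ ≤ X := le_trans (le_max_left _ _) hX
  have hX2 : x₂ ≤ X := le_trans (le_trans (le_max_left _ _) (le_max_right _ _)) hX
  have hX3 : x₃ ≤ X := le_trans (le_trans (le_max_right _ _) (le_max_right _ _)) hX
  obtain ⟨hL2, hP1, hP2, h3X⟩ := hx₃ X hX3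
  have hq1 : 1 ≤ q := Nat.one_le_iff_ne_zero.2 (NeZero.ne q)
  obtain ⟨U, hU1, hqU, hUq⟩ := choice_U r q hr hq1
  have hXpos : (0 : ℝ) < X := by
    have : (3 : ℝ) ≤ X := by exact_mod_cast h3X
    linarith
  have hXk : 0 < (X : ℝ) ^ κ := Real.rpow_pos_of_pos hXpos κ
  -- the power saving
  have hp := hpw q X U hq1 (by omega) hU1 hq hUq
  have hXsub : (X : ℝ) ^ (1 - 1 / (3 * (r : ℝ) + 4)) = X / (X : ℝ) ^ κ := by
    rw [← hκ, Real.rpow_sub hXpos, Real.rpow_one]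
  rw [hXsub] at hp
  have hUqR : (U : ℝ) * q ≤ C * (X / (X : ℝ) ^ κ) := by
    refine le_trans ?_ hp
    have e1 : (1 : ℝ) ≤ √(q : ℝ) := by
      rw [← Real.sqrt_one]
      exact Real.sqrt_le_sqrt (by exact_mod_cast hq1)
    have e2 : (1 : ℝ) ≤ (q.divisors.card : ℝ) := by
      have : 0 < q.divisors.card := Finset.card_pos.2 ⟨1, Nat.one_mem_divisors.2 (by omega)⟩
      exact_mod_cast this
    have e3 : (1 : ℝ) ≤ √(q : ℝ) * (q.divisors.card : ℝ) := by nlinarith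
    have e4 : (0 : ℝ) ≤ (U : ℝ) * q + q := by positivity
    have e5 : (0 : ℝ) ≤ (q : ℝ) := by positivity
    nlinarith
  have hUq32 : 32 * ((U : ℝ) * q) ≤ X := by
    calc 32 * ((U : ℝ) * q) ≤ 32 * (C * (X / (X : ℝ) ^ κ)) := by linarith
      _ = (32 * C) * (X / (X : ℝ) ^ κ) := by ring
      _ ≤ (X : ℝ) ^ κ * (X / (X : ℝ) ^ κ) := mul_le_mul_of_nonneg_right hP1 (by positivity)
      _ = X := by field_simp
  have hUqN : 32 * (U * q) ≤ X := by exact_mod_cast hUq32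
  have hqUq : q ≤ U * q := Nat.le_mul_of_pos_left q (by omega)
  have hqw : q ≤ w₀ := by omega
  have hUqX : U * q ≤ X := by omega
  have hqX : q ≤ X := by omega
  obtain ⟨α, α', β', E, hα, hα1, hα0, hα', hβ', hE, hPsi⟩ :=
    hVACX q X U q w₀ w₁ h3X hU1 hq1 hqw hUqX hw01 hw1
  obtain ⟨L, hLdef⟩ : ∃ L : ℝ, L = Real.log X := ⟨_, rfl⟩
  have hps := hPS2 q X w₀ w₁ (by omega) hqX hw1
  have hY : ∑ χ ∈ 𝓖, ‖Psi χ w₀ w₁‖ ^ 2 ≤ 2 * (X : ℝ) ^ 2 * Real.log X ^ 2 :=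
    (sum_le_sum_of_subset_of_nonneg (subset_univ _) fun _ _ _ => by positivity).trans hps
  have b1 := h1 q X U w₀ w₁ α 𝓖 (fun χ => ‖Psi χ w₀ w₁‖) hX1 hq hU1 hUq hw01 hw1 hα hα1 hα0
    (fun χ hχ => ⟨(hG χ hχ).1, norm_nonneg _⟩) hY
  have b2 := h2 q X U w₀ w₁ α' β' 𝓖 (fun χ => ‖Psi χ w₀ w₁‖) hX2 hq hU1 hqU hw01 hw1 hα' hβ'
    (fun χ hχ => ⟨norm_nonneg _, (hG χ hχ).2⟩) hY
  rw [← hLdef] at hL2 hP2 hE hY b1 b2
  have hL0 : (0 : ℝ) < L := by linarith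
  have h3 : (X : ℝ) ^ 2 / L ^ (A + 2) ≤ (X : ℝ) ^ 2 / L ^ A / 3 := by
    rw [div_div]
    refine div_le_div_of_nonneg_left (by positivity) (by positivity) ?_
    have : (4 : ℝ) ≤ L ^ 2 := by nlinarith
    rw [pow_add]
    refine mul_le_mul_of_nonneg_left (by linarith) (by positivity)
  have hbe : ∑ χ ∈ 𝓖, ‖Psi χ w₀ w₁‖ * ‖E χ‖ ≤ (X : ℝ) ^ 2 / L ^ A / 3 := by
    have h5 := Real.sum_mul_le_sqrt_mul_sqrt 𝓖 (fun χ => ‖Psi χ w₀ w₁‖) (fun χ => ‖E χ‖)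
    have h6 : √(∑ χ ∈ 𝓖, ‖Psi χ w₀ w₁‖ ^ 2) ≤ 2 * X * L := by
      refine Real.sqrt_le_iff.2 ⟨by positivity, hY.trans ?_⟩
      have : (0 : ℝ) ≤ X ^ 2 * L ^ 2 := by positivity
      nlinarith
    have h7 : √(∑ χ ∈ 𝓖, ‖E χ‖ ^ 2) ≤ 2 * U * q * L := by
      refine Real.sqrt_le_iff.2 ⟨by positivity, le_trans ?_ hE⟩
      refine sum_le_sum_of_subset_of_nonneg ?_ fun _ _ _ => by positivity
      intro χ hχ
      exact mem_filter.2 ⟨mem_univ _, (hG χ hχ).1⟩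
    refine h5.trans ((mul_le_mul h6 h7 (Real.sqrt_nonneg _) (by positivity)).trans ?_)
    rw [div_div, le_div_iff₀ (by positivity)]
    calc 2 * (X : ℝ) * L * (2 * U * q * L) * (L ^ A * 3)
        = (X : ℝ) * (12 * L ^ (A + 2)) * (U * q) := by ring
      _ ≤ (X : ℝ) * (12 * L ^ (A + 2)) * (C * (X / (X : ℝ) ^ κ)) := by gcongr
      _ = (X : ℝ) * (X / (X : ℝ) ^ κ) * (12 * C * L ^ (A + 2)) := by ring
      _ ≤ (X : ℝ) * (X / (X : ℝ) ^ κ) * (X : ℝ) ^ κ := by gcongr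
      _ = (X : ℝ) ^ 2 := by field_simp
  calc ∑ χ ∈ 𝓖, ‖Psi χ w₀ w₁‖ ^ 2
      ≤ ∑ χ ∈ 𝓖, (‖Psi χ w₀ w₁‖ * ‖E χ‖ + ‖Psi χ w₀ w₁‖ * ‖Bil χ α one1 X w₀ w₁‖ +
          ‖Psi χ w₀ w₁‖ * ‖Bil χ α' β' X w₀ w₁‖) := by
        refine sum_le_sum fun χ _ => ?_
        rw [← mul_add, ← mul_add, sq]
        exact mul_le_mul_of_nonneg_left (hPsi χ) (norm_nonneg _)
    _ ≤ (X : ℝ) ^ 2 / L ^ A / 3 + (X : ℝ) ^ 2 / L ^ A / 3 + (X : ℝ) ^ 2 / L ^ A / 3 := by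
        rw [sum_add_distrib, sum_add_distrib]
        exact add_le_add (add_le_add hbe (b1.trans h3)) (b2.trans h3)
    _ = (X : ℝ) ^ 2 / Real.log X ^ A := by rw [hLdef]; ring

end Pool.Agent.Helper33.E3
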